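import Pool.Agent.Lib.Pad47bbP.Quot

/-!
Both parts of the cone conjecture pass from finitely many Calabi-Yau pairs to their products, and
from these to all quotients by finite groups, which may permute or mix the factors.

Dictionary: `V i` = real Néron-Severi space of the factor `X i`, `L i` = classes of integral
divisors, `K i` = effective nef cone (or effective movable cone) of `X i`, `Γ i` = image of
`Aut (X i)` (or of `PsAut (X i)`). The product of the spaces, lattices and cones is the data of
`X = ∏ X i` whenever the Picard group of the product is the product of the Picard groups (at most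
one factor is irregular). `G` = image of `Aut X` (or `PsAut X`), `H` = image of a finite group of
automorphisms of `X` with quotient `Y`; `W`, `M`, `Γ'` = the corresponding space, lattice and group
of `Y`, and `p` = pullback from `Y` to `X`, which is injective with image the space of
`H`-invariants and for which the cone of `Y` is the preimage of the cone of `X`. `D` = image of
the centraliser of the finite group; its elements descend to automorphisms
(pseudo-automorphisms) of `Y`.
-/

open Pool.Agent.Lib.Pad47bb Pool.Agent.Lib.Pad47bbP

namespace Pool.Agent.Results.MP_ad47bb_ag.FiniteQuotient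

/-- Let `(V i, L i, K i, Γ i)` be finitely many cone data: `L i` a lattice in `V i`, `K i` a convex
cone with nonempty interior whose closure contains no line, `Γ i` a group of linear automorphisms
preserving `L i` and `K i` with a rational polyhedral fundamental domain on `K i`. Let `G` be any
group of linear automorphisms of the product space which preserves the product lattice and the
product cone and contains the product of the groups `Γ i`. Then for all quotient data of the
product (see `IsQuotient`: an arbitrary finite group `H` of automorphisms of the product lattice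
and cone, the space of invariants, a subgroup `D` of finite index of the centraliser of `H` in `G`)
the group `Γ'` has a rational polyhedral fundamental domain on the preimage of the product
cone. -/
theorem result {ι : Type*} [Fintype ι] {V : ι → Type*} [∀ i, NormedAddCommGroup (V i)]
    [∀ i, NormedSpace ℝ (V i)] [∀ i, FiniteDimensional ℝ (V i)]
    {W : Type*} [NormedAddCommGroup W] [NormedSpace ℝ W] [FiniteDimensional ℝ W]
    (L : ∀ i, Submodule ℤ (V i)) [∀ i, DiscreteTopology (L i)] [∀ i, IsZLattice ℝ (L i)]
    (M : Submodule ℤ W) [DiscreteTopology M] [IsZLattice ℝ M]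
    (K : ∀ i, PointedCone ℝ (V i)) (Γ : ∀ i, Subgroup (V i ≃ₗ[ℝ] V i))
    (hS : ∀ i, Setting (L i) (K i) (Γ i)) (hΓ : ∀ i, HasRPFD (L i) (Γ i) (K i))
    (G H D : Subgroup ((∀ i, V i) ≃ₗ[ℝ] (∀ i, V i)))
    (hG : Preserves (prodLattice L) (prodCone K) G)
    (hG' : ∀ γ : ∀ i, V i ≃ₗ[ℝ] V i, (∀ i, γ i ∈ Γ i) → LinearEquiv.piCongrRight γ ∈ G)
    (p : W →ₗ[ℝ] (∀ i, V i)) (Γ' : Subgroup (W ≃ₗ[ℝ] W))
    (hQ : IsQuotient (prodLattice L) (prodCone K) G H D p M Γ') :
    HasRPFD M Γ' ((prodCone K).comap p) :=
  prod_quot L M K Γ hS hΓ G H D hG hG' p Γ' hQ

end Pool.Agent.Results.MP_ad47bb_ag.FiniteQuotient
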