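import Pool.Agent.Lib.Pad47bbM.At

/-!
The cone conjecture as a non-vanishing statement for classes of minimal degree in their orbit.

Dictionary: `V = N¹(X)_ℝ`, `L` = classes of integral Weil divisors, `E = Eff(X)`, and either
`N = Nef(X)`, `Γ` = image of `Aut(X)`, or `N` = closed movable cone, `Γ` = image of `PsAut(X)`;
`f(D) = D · A^(n-1)` with `A` ample. For a contraction `X → S` and a finite set `J` of classes
spanning the pullback of `N¹(S)`, `fixer Γ J` is the group of automorphisms of `X` acting trivially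
on the pullback of `N¹(S)`. For a semiample class `D` defining `X → S` the stabilizer of `D` is the
group of automorphisms of `X` over `S`, up to finite index.
-/

open Set Topology
open Pool.Agent.Lib.Pad47bb Pool.Agent.Lib.Pad47bbQ Pool.Agent.Lib.Pad47bbM

namespace Pool.Agent.Results.MP_ad47bb_ag.RelativeNonvanishing

universe u

variable {V : Type u} [NormedAddCommGroup V] [NormedSpace ℝ V]

/-- Let `L` be a lattice in `V ≠ 0`, `E` a convex cone generated by its lattice points whose closure
contains no line, `N` a closed convex cone with nonempty interior inside the closure of `E`, `Γ` a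
group of automorphisms of `V` preserving `L`, `N` and `E`, and `f` a linear functional positive on
`N ∖ {0}`. A point `D` is minimal for a group `H` if `f D ≤ f (g D)` for all `g ∈ H`. Let `C` be the
cone generated by the lattice points of `N ∩ E`, and let `J` run through the finite sets of lattice
points of `N ∩ E`; `fixer Γ J` is the pointwise stabilizer of `J`.

1. The following are equivalent.
(a) `Γ` has a rational polyhedral fundamental domain on `N ∩ E`.
(b) For every `J`, the closure of `R + span J` is contained in `C + span J`, where `R` is the set of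
points of `N` which are minimal for `fixer Γ J`.
(c) The same for the set `R` of the points of `N` which are minimal for `Γ`.
(d) Every point of `N` which is minimal for `Γ` lies in `C`, and for every nonzero lattice point `D`
of `N ∩ E` the relative cone statement holds: there is a finite set `Y` of lattice points of `N ∩ E`
such that every point of the interior of `N` is moved into `cone Y + ℝ D` by an element of `Γ`
fixing `D`.

2. If `f` is integral on `L` and `N` is locally rational polyhedral at all points of `N ∩ interior E`,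
then `Γ` has a rational polyhedral fundamental domain on `N ∩ E` if and only if every extremal ray,
outside the interior of `E`, of the cone of the points of `N` which are minimal for `Γ`, is spanned
by a point of `L ∩ E`, and the relative cone statement holds for every nonzero lattice point of
`N ∩ E` outside the interior of `E`.

3. If the intersection of `N` with the cone generated by any finite set of lattice points of `E` is
rational polyhedral, then `Γ` has a rational polyhedral fundamental domain on `N ∩ E` if and only if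
every extremal ray, outside the interior of `E`, of the cone of the points of `N` which are minimal
for `Γ`, is contained in `E`, and the relative cone statement holds for every nonzero lattice point
of `N ∩ E` outside the interior of `E`. -/
theorem result [FiniteDimensional ℝ V] [Nontrivial V]
    (L : Submodule ℤ V) [DiscreteTopology L] [IsZLattice ℝ L]
    (N E : PointedCone ℝ V)
    (hN : IsClosed (N : Set V)) (hNE : (N : Set V) ⊆ closure (E : Set V))
    (hE : ∀ x ∈ closure (E : Set V), -x ∈ closure (E : Set V) → x = 0)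
    (hint : (interior (N : Set V)).Nonempty)
    (hEL : E = PointedCone.hull ℝ ((E : Set V) ∩ (L : Set V)))
    (Γ : Subgroup (V ≃ₗ[ℝ] V)) (hL : ∀ g ∈ Γ, ∀ x ∈ L, g x ∈ L)
    (hΓN : ∀ g ∈ Γ, ∀ x ∈ N, g x ∈ N) (hΓE : ∀ g ∈ Γ, ∀ x ∈ E, g x ∈ E)
    (f : V →L[ℝ] ℝ) (hf : ∀ x ∈ N, x ≠ 0 → 0 < f x) :
    [HasRPFD L Γ (N ⊓ E),
      ∀ J : Finset V, (∀ p ∈ J, p ∈ L ∧ p ∈ N ∧ p ∈ E) → NonVan L N E (fixer Γ J) f J,
      ∀ J : Finset V, (∀ p ∈ J, p ∈ L ∧ p ∈ N ∧ p ∈ E) → NonVan L N E Γ f J,
      (∀ D ∈ N, IsMinimal Γ f D → D ∈ latCone L N E) ∧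
        ∀ D ∈ L, D ∈ N → D ∈ E → D ≠ 0 → RelConeAt L N E Γ D].TFAE ∧
    ((∀ x ∈ L, ∃ n : ℤ, f x = n) → (∀ D ∈ N, D ∈ interior (E : Set V) → IsLocRatPoly L N D) →
      (HasRPFD L Γ (N ⊓ E) ↔
        (∀ D, IsExtremal {x : V | x ∈ N ∧ IsMinimal Γ f x} D → D ∉ interior (E : Set V) →
          ∃ c : ℝ, 0 < c ∧ c • D ∈ L ∧ c • D ∈ E) ∧
        ∀ D ∈ L, D ∈ N → D ∈ E → D ≠ 0 → D ∉ interior (E : Set V) → RelConeAt L N E Γ D)) ∧
    ((∀ S : Finset V, (∀ p ∈ S, p ∈ L ∧ p ∈ E) →
        IsRatPoly L (N ⊓ PointedCone.hull ℝ (S : Set V))) →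
      (HasRPFD L Γ (N ⊓ E) ↔
        (∀ D, IsExtremal {x : V | x ∈ N ∧ IsMinimal Γ f x} D → D ∉ interior (E : Set V) →
          D ∈ E) ∧
        ∀ D ∈ L, D ∈ N → D ∈ E → D ≠ 0 → D ∉ interior (E : Set V) → RelConeAt L N E Γ D)) := by
  classical
  have T : Data L N E Γ := ⟨hN, hNE, hE, hint, hEL, hL, hΓN, hΓE⟩
  have hf' : ∀ x ∈ closure (N : Set V), x ≠ 0 → 0 < f x := by
    rw [hN.closure_eq]
    exact hf
  have hSJ : ∀ J : Finset V, Setting L N (fixer Γ J) := fun J =>
    ⟨T.settingN.salient, T.settingN.interior_nonempty,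
      fun g hg => T.settingN.map_lattice g hg.1, fun g hg => T.settingN.map_cone g hg.1⟩
  have hrel : ∀ J : Finset V, (∀ p ∈ J, p ∈ L ∧ p ∈ N ∧ p ∈ E) → RelCone L N E Γ J →
      NonVan L N E (fixer Γ J) f J := fun J hJ h =>
    nonVan_of_relCov (hSJ J) f hf' (relCov_of_relCone T.settingN hΓE f hf' hJ h)
  have habs : HasRPFD L Γ (N ⊓ E) → ∀ J : Finset V, (∀ p ∈ J, p ∈ L ∧ p ∈ N ∧ p ∈ E) →
      RelCone L N E Γ J := by
    rintro ⟨P, ⟨s, hsL, hsP⟩, hPcov, -⟩ J hJ
    have hPNE : (P : Set V) ⊆ ((N ⊓ E : PointedCone ℝ V) : Set V) := by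
      rw [hPcov]
      intro x hx
      exact mem_biUnion (one_mem Γ) ⟨x, hx, rfl⟩
    have hs : ∀ p ∈ s, p ∈ L ∧ p ∈ N ∧ p ∈ E := by
      intro p hp
      have : p ∈ P := by rw [hsP]; exact Submodule.subset_span hp
      exact ⟨hsL hp, (hPNE this).1, (hPNE this).2⟩
    refine relCone_of_cover T.settingN hΓE f hf' s hs ?_ J hJ
    intro x hx
    have hxNE : x ∈ ((N ⊓ E : PointedCone ℝ V) : Set V) :=
      ⟨interior_subset hx, interior_subset (T.intN_subset hx)⟩
    rw [hPcov] at hxNE
    simp only [mem_iUnion] at hxNE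
    obtain ⟨g, hg, y, hy, hyx⟩ := hxNE
    exact ⟨g, hg, y, by rw [← hsP]; exact hy, hyx⟩
  have htfae : [HasRPFD L Γ (N ⊓ E),
      ∀ J : Finset V, (∀ p ∈ J, p ∈ L ∧ p ∈ N ∧ p ∈ E) → NonVan L N E (fixer Γ J) f J,
      ∀ J : Finset V, (∀ p ∈ J, p ∈ L ∧ p ∈ N ∧ p ∈ E) → NonVan L N E Γ f J,
      (∀ D ∈ N, IsMinimal Γ f D → D ∈ latCone L N E) ∧
        ∀ J : Finset V, (∀ p ∈ J, p ∈ L ∧ p ∈ N ∧ p ∈ E) → ∑ p ∈ J, p ≠ 0 →
          RelCone L N E Γ J].TFAE := by
    tfae_have 1 → 2 := fun h J hJ => hrel J hJ (habs h J hJ)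
    tfae_have 2 → 3 := fun h J hJ => (h J hJ).mono (fixer_le Γ J)
    tfae_have 3 → 1 := fun h => T.hasRPFD_of_nonVan f hf fun J hJ => Or.inl (h J hJ)
    tfae_have 1 → 4 := by
      intro h
      refine ⟨fun D hD hmin => ?_, fun J hJ _ => habs h J hJ⟩
      have h1 := hrel ∅ (fun p hp => absurd hp (Finset.notMem_empty p))
        (habs h ∅ fun p hp => absurd hp (Finset.notMem_empty p))
      rw [fixer_empty] at h1
      have hDmem : D ∈ {x : V | ∃ r ∈ N, IsMinimal Γ f r ∧
          x - r ∈ Submodule.span ℝ ((∅ : Finset V) : Set V)} := ⟨D, hD, hmin, by simp⟩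
      obtain ⟨c, hc, hDc⟩ := h1 (subset_closure hDmem)
      rw [Finset.coe_empty, Submodule.span_empty, Submodule.mem_bot, sub_eq_zero] at hDc
      rw [hDc]
      exact hc
    tfae_have 4 → 1 := by
      rintro ⟨hmin, hrc⟩
      refine T.hasRPFD_of_nonVan f hf fun J hJ => ?_
      by_cases hJ0 : ∑ p ∈ J, p = 0
      · left
        have hspan : Submodule.span ℝ (J : Set V) = ⊥ := by
          rw [eq_bot_iff]
          refine Submodule.span_le.2 fun p hp => ?_
          have h1 : f p ≤ f (∑ p ∈ J, p) := by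
            rw [map_sum]
            refine Finset.single_le_sum (f := fun p => f p) (fun q hq => ?_) hp
            by_cases hq0 : q = 0
            · rw [hq0, map_zero]
            · exact (hf q (hJ q hq).2.1 hq0).le
          rw [hJ0, map_zero] at h1
          by_contra hp0
          exact absurd (hf p (hJ p hp).2.1 hp0) (not_lt.2 h1)
        have hsub : {x : V | ∃ r ∈ N, IsMinimal Γ f r ∧ x - r ∈ Submodule.span ℝ (J : Set V)} ⊆
            (N : Set V) ∩ {x | IsMinimal Γ f x} := by
          rintro x ⟨r, hr, hrmin, hxr⟩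
          rw [hspan, Submodule.mem_bot, sub_eq_zero] at hxr
          rw [hxr]
          exact ⟨hr, hrmin⟩
        intro x hx
        have hx' := closure_minimal hsub (hN.inter (isClosed_isMinimal Γ f)) hx
        exact ⟨x, hmin x hx'.1 hx'.2, by simp⟩
      · right
        exact (relCov_of_relCone T.settingN hΓE f hf' hJ (hrc J hJ hJ0)).mono (fixer_le Γ J)
    tfae_finish
  have hred := relCone_forall_iff hN hL hΓN hΓE f hf
  have hred0 : (∀ J : Finset V, (∀ p ∈ J, p ∈ L ∧ p ∈ N ∧ p ∈ E) → ∑ p ∈ J, p ≠ 0 →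
      RelCone L N E Γ J) ↔ ∀ D ∈ L, D ∈ N → D ∈ E → D ≠ 0 → RelConeAt L N E Γ D := by
    have h := hred ∅
    simpa using h
  have h14 := htfae.out 0 3
  have h12 := htfae.out 0 1
  have h13 := htfae.out 0 2
  refine ⟨?_, fun hfL hloc => ?_, fun hSh => ?_⟩
  · rw [hred0] at h14
    tfae_have 1 ↔ 2 := h12
    tfae_have 1 ↔ 3 := h13
    tfae_have 1 ↔ 4 := h14
    tfae_finish
  · rw [← hred (interior (E : Set V))]
    exact T.hasRPFD_iff_extremal f hf hfL hloc h14
  · rw [← hred (interior (E : Set V))]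
    exact T.hasRPFD_iff_nonvanishing f hf hSh h14

end Pool.Agent.Results.MP_ad47bb_ag.RelativeNonvanishing
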