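import Pool.Agent.Lib.Pad47bbS.Sharp

/-!
The cone conjecture and sums of nef classes: `ρ` summands for ample classes, `min(ρ, n + 1)` summands
for big nef classes, isosystolic inequality.

Dictionary: `V = N¹(X)_ℝ`, `ρ = dim V`, `L` = classes of integral divisors, `N = Nef(X)` (or the
closed movable cone), `M = Nef(X) ∩ Eff(X)` (or the movable cone intersected with `Eff(X)`),
`Γ` = image of `Aut(X)` (or `PsAut(X)`); for `N = Nef(X)`: `n = dim X`, `F` = intersection form,
`deg F D = Dⁿ`, and a nef class `D` is big iff `Dⁿ > 0`.
-/

open Pool.Agent.Lib.Pad47bb Pool.Agent.Lib.Pad47bbV Pool.Agent.Lib.Pad47bbS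

universe u

namespace Pool.Agent.Results.MP_ad47bb_ag.Splitting

/-- Optimality in dimension `r` and degree `n`: there are cones in `ℝ ^ r` and a symmetric
intersection form of degree `n`, for the lattice `ℤ ^ r` and the trivial group, such that all interior
lattice points are sums of `r - 1`, and all lattice points of `M` with `F(y, ..., y) > 0` are sums of
`min(r, n + 1) - 1` nonzero lattice points of `M`, but there is no rational polyhedral fundamental
domain. -/
def OptimalAt (n r : ℕ) : Prop :=
  ∃ (N M : PointedCone ℝ (Fin r → ℝ)) (F : MultilinearMap ℝ (fun _ : Fin n => Fin r → ℝ) ℝ),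
    Cones (intLat r) N M ⊥ ∧ LatticeGenerated (intLat r) M ∧ IsIntersection N ⊥ F ∧
    (∀ (τ : Equiv.Perm (Fin n)) (x : Fin n → Fin r → ℝ), F (fun i => x (τ i)) = F x) ∧
    (∀ y ∈ intLat r, y ∈ M → 0 < deg F y → IsSum (intLat r) M (min r (n + 1) - 1) y) ∧
    (∀ y ∈ intLat r, y ∈ interior (N : Set (Fin r → ℝ)) → IsSum (intLat r) M (r - 1) y) ∧
    ¬ HasRPFD (intLat r) ⊥ M

/-- Let `L` be a lattice in a real vector space `V ≠ 0` of dimension `ρ`, `N` a closed convex cone
with nonempty interior containing no line, `M` a convex cone between the interior of `N` and `N`, and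
`Γ` a group of linear automorphisms preserving `L`, `N` and `M`.  The following are equivalent:
(1) `Γ` has a rational polyhedral fundamental domain on `M`; (2) `M` is generated by its lattice
points, and all but finitely many `Γ`-orbits of lattice points in the interior of `N` consist of sums
of `ρ` nonzero lattice points of `M`; (3) `M` is generated by the lattice points of `N`, and, for
every `m ≥ 1`, all but finitely many `Γ`-orbits of lattice points of `N` consist of sums of `m`
nonzero lattice points of `M`.

If moreover `F` is an `n`-linear form with the positivity properties of the intersection form of nef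
classes (`IsIntersection`), these are equivalent to: (4) `M` is generated by its lattice points, and
all but finitely many `Γ`-orbits of lattice points `x` of `M` with `F(x, ..., x) > 0` consist of sums
of `min(ρ, n + 1)` nonzero lattice points of `M`; (5) `M` is generated by its lattice points, the
interior lattice points of bounded degree lie in finitely many orbits, and every lattice point of `M`
of large degree is a sum of `min(ρ, n + 1)` nonzero lattice points of `M`; (6) as (5), with the
isosystolic inequality in place of the last condition.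

The numbers `ρ` in (2) and `min(ρ, n + 1)` in (4) are optimal for all `ρ ≥ 2` and `n ≥ 1`, also for
symmetric `F`. -/
theorem result :
    (∀ (V : Type u) [NormedAddCommGroup V] [NormedSpace ℝ V] [FiniteDimensional ℝ V]
      [Nontrivial V] (L : Submodule ℤ V) [DiscreteTopology L] [IsZLattice ℝ L]
      (N M : PointedCone ℝ V) (Γ : Subgroup (V ≃ₗ[ℝ] V)), Cones L N M Γ →
      [HasRPFD L Γ M,
        LatticeGenerated L M ∧ AlmostSplits L M Γ (interior (N : Set V)) (Module.finrank ℝ V),
        M = ratHull L N ∧ ∀ m, 0 < m → AlmostSplits L M Γ N m].TFAE ∧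
      ∀ (n : ℕ) (F : MultilinearMap ℝ (fun _ : Fin n => V) ℝ), IsIntersection N Γ F →
      [HasRPFD L Γ M,
        LatticeGenerated L M ∧
          AlmostSplits L M Γ {x | x ∈ M ∧ 0 < deg F x} (min (Module.finrank ℝ V) (n + 1)),
        LatticeGenerated L M ∧ FinOrbits L N Γ (deg F) ∧
          Splits L M (deg F) M (min (Module.finrank ℝ V) (n + 1)),
        LatticeGenerated L M ∧ FinOrbits L N Γ (deg F) ∧
          Isosystolic L N M n (deg F)].TFAE) ∧
    ∀ n r : ℕ, 1 ≤ n → 2 ≤ r → OptimalAt n r :=
  ⟨fun _ _ _ _ _ _ _ _ _ _ _ hC => ⟨tfae_almostSplits hC, fun _ _ hF => tfae_min hC hF⟩,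
    fun n r hn hr => sharp n r hn hr⟩

end Pool.Agent.Results.MP_ad47bb_ag.Splitting
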